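import Pool.Agent.helper99.WN.SpecA

/-! # MP_5c1f29, row CI -/

set_option autoImplicit false

open Classical

namespace Pool.Agent.WN

theorem CI (hCB : CB_stmt) (hCD : CD_stmt) : CI_stmt := by
  intro k W N n s
  induction s with
  | zero =>
    intro V R hR
    refine ⟨V, R, id, hR, fun _ _ h => h, fun _ _ _ h => h, ?_⟩
    intro v l hl
    have h1 : l = [] := List.length_eq_zero_iff.mp (by omega)
    rw [h1]
    exact ⟨v, rfl⟩
  | succ s ih =>
    intro V R hR
    have h1 : Hyp (Rp R W N n) W N n :=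
      ⟨hR.wd, hR.seven, (hCB V k R W N n hR).1, (hCB V k R W N n hR).2, hCD V k R W N n hR⟩
    obtain ⟨V', R', ι, h2, h3, h4, h5⟩ := ih (V × List (Lt k)) (Rp R W N n) h1
    refine ⟨V', R', fun v => ι (v, []), h2, ?_, ?_, ?_⟩
    · intro a b hab
      exact congrArg Prod.fst (h3 hab)
    · intro v a v' hv
      exact h4 _ _ _ (Rp.base hv)
    · intro v l hl
      rcases l with _ | ⟨a, l⟩
      · exact ⟨ι (v, []), rfl⟩
      · have hl' : l.length ≤ s := by
          rw [List.length_cons] at hl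
          omega
        by_cases hv : ∃ v1, R v a v1
        · obtain ⟨v1, hv1⟩ := hv
          obtain ⟨v', hv'⟩ := h5 (v1, []) l hl'
          exact ⟨v', ι (v1, []), h4 _ _ _ (Rp.base hv1), hv'⟩
        · have hms : Ms R v a := fun v1 hv1 => hv ⟨v1, hv1⟩
          have hal : Al R W N n v [a] :=
            ⟨List.isChain_singleton a, ⟨a, rfl, hms⟩, Or.inl hR.wd.pos⟩
          obtain ⟨v', hv'⟩ := h5 (v, [a]) l hl'
          exact ⟨v', ι (v, [a]), h4 _ _ _ (Rp.down hal), hv'⟩

end Pool.Agent.WN
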