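import Pool.Agent.helper99.WN.SpecA

/-! # MP_5c1f29, row QU -/

set_option autoImplicit false

open Classical

namespace Pool.Agent.WN

lemma QU_A {V V' K : Type} [Group K] (S : Set (V × K × V)) (f : V → V') (y y' v0 : V) (u g : K)
    (hf : ∀ a b, f a = f b → a = b ∨ (a = y ∧ b = y') ∨ (a = y' ∧ b = y))
    (hu : PL S y y' u) (hg : PL S v0 y g) (C : Subgroup K)
    (hC1 : ∀ h, PL S v0 v0 h → h ∈ C) (hC2 : g * u * g⁻¹ ∈ C) (v v' : V) (a a' : K)
    (hvv : f v = f v') (ha : PL S v0 v a) (ha' : PL S v0 v' a') : a * a'⁻¹ ∈ C := by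
  have key : ∀ b b' : K, PL S v0 y b → PL S v0 y' b' → b * b'⁻¹ ∈ C := by
    intro b b' hb hb'
    have h1 : b * u * b'⁻¹ ∈ C := hC1 _ ((hb.trans hu).trans hb'.symm)
    have h2 : b * g⁻¹ ∈ C := hC1 _ (hb.trans hg.symm)
    have h3 : (b * g⁻¹) * (g * u * g⁻¹) * (b * g⁻¹)⁻¹ ∈ C :=
      C.mul_mem (C.mul_mem h2 hC2) (C.inv_mem h2)
    have h4 : ((b * g⁻¹) * (g * u * g⁻¹) * (b * g⁻¹)⁻¹)⁻¹ * (b * u * b'⁻¹) = b * b'⁻¹ := by
      group
    rw [← h4]
    exact C.mul_mem (C.inv_mem h3) h1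
  rcases hf v v' hvv with h | ⟨h1, h2⟩ | ⟨h1, h2⟩
  · subst h
    exact hC1 _ (ha.trans ha'.symm)
  · subst h1 h2
    exact key a a' ha ha'
  · subst h1 h2
    have h5 := C.inv_mem (key a' a ha' ha)
    rwa [mul_inv_rev, inv_inv] at h5

theorem QU : QU_stmt := by
  intro V V' K _ S f y y' v0 u g hf hfy hu hg h
  set S' : Set (V' × K × V') := {p | ∃ a x b, (a, x, b) ∈ S ∧ p = (f a, x, f b)} with hS'
  set C := Subgroup.closure ({h : K | PL S v0 v0 h} ∪ {g * u * g⁻¹}) with hC
  have hC1 : ∀ h, PL S v0 v0 h → h ∈ C := fun h hh =>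
    Subgroup.subset_closure (Set.mem_union_left _ hh)
  have hC2 : g * u * g⁻¹ ∈ C :=
    Subgroup.subset_closure (Set.mem_union_right _ (Set.mem_singleton _))
  have hmap : ∀ {a b : V} {t : K}, PL S a b t → PL S' (f a) (f b) t := by
    intro a b t ht
    exact PL.map (S' := S') f (fun a x b hx =>
      PL.edge (S := S') (show (f a, x, f b) ∈ S' from ⟨a, x, b, hx, rfl⟩)) ht
  have hA := QU_A S f y y' v0 u g hf hu hg C hC1 hC2
  have hex : ∀ v w : V, f v = f w → (∃ a, PL S v0 v a) → ∃ a, PL S v0 w a := by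
    intro v w hvw ⟨a, ha⟩
    rcases hf v w hvw with h | ⟨h1, h2⟩ | ⟨h1, h2⟩
    · subst h
      exact ⟨a, ha⟩
    · exact ⟨g * u, h2 ▸ hg.trans hu⟩
    · exact ⟨g, h2 ▸ hg⟩
  constructor
  · intro hp
    have key : ∀ (w c : V') (t : K), PL S' w c t → w = f v0 →
        (∀ v, f v = c → ∃ a, PL S v0 v a) ∧ ∀ v a, f v = c → PL S v0 v a → t * a⁻¹ ∈ C := by
      intro w c t ht
      induction ht with
      | nil =>
        intro hw
        refine ⟨?_, ?_⟩
        · intro v hv
          exact hex v0 v (by rw [hv, hw]) ⟨1, PL.nil v0⟩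
        · intro v a hv ha
          exact hA v0 v 1 a (by rw [hv, hw]) (PL.nil v0) ha
      | @fwd b c t x ht he ih =>
        intro hw
        obtain ⟨i1, i2⟩ := ih hw
        obtain ⟨a1, x1, b1, he1, he2⟩ := he
        have e1 : b = f a1 := congrArg Prod.fst he2
        have e2 : x = x1 := congrArg (fun p => p.2.1) he2
        have e3 : c = f b1 := congrArg (fun p => p.2.2) he2
        obtain ⟨a0, ha0⟩ := i1 a1 e1.symm
        have h5 := i2 a1 a0 e1.symm ha0
        have h6 : PL S v0 b1 (a0 * x) := by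
          rw [e2]
          exact ha0.fwd he1
        refine ⟨?_, ?_⟩
        · intro v hv
          exact hex b1 v (by rw [hv, e3]) ⟨_, h6⟩
        · intro v a hv ha
          have h7 := hA b1 v (a0 * x) a (by rw [hv, e3]) h6 ha
          have h8 : t * x * a⁻¹ = (t * a0⁻¹) * (a0 * x * a⁻¹) := by group
          rw [h8]
          exact C.mul_mem h5 h7
      | @bwd b c t x ht he ih =>
        intro hw
        obtain ⟨i1, i2⟩ := ih hw
        obtain ⟨a1, x1, b1, he1, he2⟩ := he
        have e1 : c = f a1 := congrArg Prod.fst he2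
        have e2 : x = x1 := congrArg (fun p => p.2.1) he2
        have e3 : b = f b1 := congrArg (fun p => p.2.2) he2
        obtain ⟨a0, ha0⟩ := i1 b1 e3.symm
        have h5 := i2 b1 a0 e3.symm ha0
        have h6 : PL S v0 a1 (a0 * x⁻¹) := by
          rw [e2]
          exact ha0.bwd he1
        refine ⟨?_, ?_⟩
        · intro v hv
          exact hex a1 v (by rw [hv, e1]) ⟨_, h6⟩
        · intro v a hv ha
          have h7 := hA a1 v (a0 * x⁻¹) a (by rw [hv, e1]) h6 ha
          have h8 : t * x⁻¹ * a⁻¹ = (t * a0⁻¹) * (a0 * x⁻¹ * a⁻¹) := by group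
          rw [h8]
          exact C.mul_mem h5 h7
    have h9 := (key _ _ _ hp rfl).2 v0 1 rfl (PL.nil v0)
    rwa [inv_one, mul_one] at h9
  · intro hh
    have hle : C ≤ loopG S' (f v0) := by
      rw [hC, Subgroup.closure_le]
      intro t ht
      rcases ht with ht | ht
      · exact hmap ht
      · have ht' : t = g * u * g⁻¹ := ht
        rw [ht']
        have h1 := hmap hg
        have h2 := hmap hu
        rw [← hfy] at h2
        exact (h1.trans h2).trans h1.symm
    exact hle hh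

end Pool.Agent.WN
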